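import Pool.Agent.Helper67.SO.Fib
import Pool.Agent.Helper62.DB.Two0

/-!
# Étale motivic cohomology of arithmetic schemes in the weights `n ≤ 0`
-/

set_option autoImplicit false

open CategoryTheory AlgebraicGeometry Polynomial
open Pool.Agent.Y116.UV (Sch aff FT IsTriple ft_aff affIso)
open Pool.Agent.Helper62.EC (Cls)

namespace Pool.Agent.Helper95.MG

/-- Data: `H n i X` is the group `H^i(X_et, ℤ^c(n))`, where `ℤ^c(n)` is Bloch's complex of cycles of
dimension `n` on the small étale site of the arithmetic scheme `X`. For `X` regular of pure dimension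
`d` it is `H^(i + 2 d)(X_et, ℤ(d - n))`. -/
structure Groups where
  H : ℤ → ℤ → Sch ℤ → Type
  [grp : ∀ n i X, AddCommGroup (H n i X)]

attribute [instance] Groups.grp

/-- The localisation sequence of the weight `n` for a closed subscheme `Z` of `X` and its complement
`U`. -/
def Localization (T : Groups) (n : ℤ) (Z X U : Sch ℤ) : Prop :=
  ∃ (push : ∀ i, T.H n i Z →+ T.H n i X) (res : ∀ i, T.H n i X →+ T.H n i U)
    (bd : ∀ i, T.H n i U →+ T.H n (i + 1) Z), ∀ i,
      Function.Exact (push i) (res i) ∧ Function.Exact (res i) (bd i) ∧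
        Function.Exact (bd i) (push (i + 1))

/-- The known facts which are used, in the weights `n ≤ 0`, for separated schemes of finite type over
`ℤ`. `iso`: isomorphic schemes; `localization`: the localisation sequences; `line`: the affine line
over `Spec A`; `integers`, `prime`: the groups of `Spec ℤ` and of `Spec 𝔽_p` are finitely generated in
the degrees `≤ -2 n`; `high`: in the weights `n < 0` the groups of the degrees greater than `-2 n` are
finitely generated (they are finite, being quotients of groups with coefficients in `ℚ/ℤ` in degrees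
`≥ 2`, which come from the real places). -/
structure Known (T : Groups) : Prop where
  iso : ∀ {X Y : Sch ℤ}, FT True X → Nonempty (X ≅ Y) → ∀ n ≤ 0, ∀ i,
    Nonempty (T.H n i X ≃+ T.H n i Y)
  localization : ∀ {Z X U : Sch ℤ} (f : Z ⟶ X) (g : U ⟶ X), FT True X → IsTriple f g →
    ∀ n ≤ 0, Localization T n Z X U
  line : ∀ (A : Type) [CommRing A] [Algebra ℤ A] [Algebra.FiniteType ℤ A], ∀ n ≤ 0, ∀ i,
    Nonempty (T.H n i (aff ℤ A[X]) ≃+ T.H (n - 1) (i + 2) (aff ℤ A))
  integers : ∀ n ≤ 0, ∀ i ≤ -2 * n, AddGroup.FG (T.H n i (aff ℤ ℤ))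
  prime : ∀ (p : ℕ) [Fact p.Prime], ∀ n ≤ 0, ∀ i ≤ -2 * n, AddGroup.FG (T.H n i (aff ℤ (ZMod p)))
  high : ∀ n < 0, ∀ i > -2 * n, ∀ X : Sch ℤ, FT True X → AddGroup.FG (T.H n i X)

/-- The groups of the weight `n ≤ 0` are finitely generated in the degrees at most `-2 n`. For `X`
regular of dimension `d` these are the groups `H^p(X_et, ℤ(m))`, `m = d - n`, `p ≤ 2 m`. -/
def FGen (T : Groups) (n : ℤ) (X : Sch ℤ) : Prop := ∀ i ≤ -2 * n, AddGroup.FG (T.H n i X)

section algebra

variable {A B C : Type} [AddCommGroup A] [AddCommGroup B] [AddCommGroup C]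

lemma fg_mid (f : A →+ B) (g : B →+ C) (h : Function.Exact f g) (hA : AddGroup.FG A)
    (hC : AddGroup.FG C) : AddGroup.FG B := by
  have hA' : Module.Finite ℤ A := Module.Finite.iff_addGroup_fg.mpr hA
  have hC' : Module.Finite ℤ C := Module.Finite.iff_addGroup_fg.mpr hC
  refine Module.Finite.iff_addGroup_fg.mp ?_
  have hN : IsNoetherian ℤ C := inferInstance
  refine ⟨Submodule.fg_of_fg_map_of_fg_inf_ker (f := g.toIntLinearMap) ?_ ?_⟩
  · exact IsNoetherian.noetherian _
  · have h1 : (⊤ ⊓ LinearMap.ker g.toIntLinearMap : Submodule ℤ B) =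
        LinearMap.range f.toIntLinearMap := by
      ext x
      simp only [top_inf_eq, LinearMap.mem_ker, AddMonoidHom.coe_toIntLinearMap,
        LinearMap.mem_range]
      exact h x
    rw [h1]
    exact Module.Finite.iff_fg.mp inferInstance

lemma fg_iso (e : A ≃+ B) (hA : AddGroup.FG A) : AddGroup.FG B := by
  have hA' : Module.Finite ℤ A := Module.Finite.iff_addGroup_fg.mpr hA
  exact Module.Finite.iff_addGroup_fg.mp (Module.Finite.equiv e.toIntLinearEquiv)

end algebra

variable {T : Groups} (hT : Known T)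

/-- the three parts of the localisation sequence -/
lemma Localization.closed {n : ℤ} {Z X U : Sch ℤ} (h : Localization T n Z X U) (i : ℤ)
    (hU : AddGroup.FG (T.H n (i - 1) U)) (hX : AddGroup.FG (T.H n i X)) :
    AddGroup.FG (T.H n i Z) := by
  obtain ⟨push, res, bd, h1⟩ := h
  have h2 := (h1 (i - 1)).2.2
  have h3 : ∀ k, k = i → Function.Exact (bd (i - 1)) (push (i - 1 + 1)) →
      AddGroup.FG (T.H n k X) → i - 1 + 1 = k → AddGroup.FG (T.H n k Z) := by
    intro k hk h4 h5 h6
    subst h6
    exact fg_mid _ _ h4 hU h5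
  exact h3 i rfl h2 hX (by ring)

lemma Localization.total {n : ℤ} {Z X U : Sch ℤ} (h : Localization T n Z X U) (i : ℤ)
    (hZ : AddGroup.FG (T.H n i Z)) (hU : AddGroup.FG (T.H n i U)) :
    AddGroup.FG (T.H n i X) := by
  obtain ⟨push, res, bd, h1⟩ := h
  exact fg_mid _ _ (h1 i).1 hZ hU

lemma Localization.opened {n : ℤ} {Z X U : Sch ℤ} (h : Localization T n Z X U) (i : ℤ)
    (hX : AddGroup.FG (T.H n i X)) (hZ : AddGroup.FG (T.H n (i + 1) Z)) :
    AddGroup.FG (T.H n i U) := by
  obtain ⟨push, res, bd, h1⟩ := h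
  exact fg_mid _ _ (h1 i).2.1 hX hZ

include hT

lemma fgen_all {n : ℤ} (hn : n < 0) {X : Sch ℤ} (hX : FT True X) (h : FGen T n X) (i : ℤ) :
    AddGroup.FG (T.H n i X) := by
  rcases le_or_gt i (-2 * n) with hi | hi
  · exact h i hi
  · exact hT.high n hn i hi X hX

omit hT in
lemma ft_triple {Z X U : Sch ℤ} (f : Z ⟶ X) (g : U ⟶ X) (hX : FT True X) (h : IsTriple f g) :
    FT True Z ∧ FT True U := by
  obtain ⟨h1, h2, h3⟩ := h
  obtain ⟨h4, h5, h6⟩ := hX
  have h7 : IsSeparated X.hom := h6 trivial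
  have h8 : Z.hom = f.left ≫ X.hom := (Over.w f).symm
  have h9 : U.hom = g.left ≫ X.hom := (Over.w g).symm
  have h10 : IsNoetherian (Spec (CommRingCat.of ℤ)) := inferInstance
  have h11 : IsLocallyNoetherian X.left := LocallyOfFiniteType.isLocallyNoetherian X.hom
  have h12 : CompactSpace X.left := (quasiCompact_iff_compactSpace X.hom).mp h5
  have h13 : IsNoetherian X.left := {}
  refine ⟨⟨?_, ?_, fun _ => ?_⟩, ⟨?_, ?_, fun _ => ?_⟩⟩
  · rw [h8]; infer_instance
  · rw [h8]; infer_instance
  · rw [h8]; infer_instance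
  · rw [h9]; infer_instance
  · rw [h9]
    have : QuasiCompact g.left := inferInstance
    infer_instance
  · rw [h9]; infer_instance

/-- In the weights `n < 0` finite generation is closed under decompositions. -/
theorem cls {n : ℤ} (hn : n < 0) : Cls True (FGen T n) where
  iso := by
    intro X Y hX e h i hi
    obtain ⟨e'⟩ := hT.iso hX e n hn.le i
    exact fg_iso e' (h i hi)
  total := by
    intro Z X U f g hX ht hZ hU i hi
    exact (hT.localization f g hX ht n hn.le).total i (hZ i hi) (hU i hi)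
  opened := by
    intro Z X U f g hX ht hZ hX' i hi
    exact (hT.localization f g hX ht n hn.le).opened i (hX' i hi)
      (fgen_all hT hn (ft_triple f g hX ht).1 hZ _)
  closed := by
    intro Z X U f g hX ht hX' hU i hi
    exact (hT.localization f g hX ht n hn.le).closed i (hU _ (by omega)) (hX' i hi)

lemma fgen_iso {n : ℤ} (hn : n ≤ 0) {A B : Type} [CommRing A] [CommRing B] [Algebra ℤ A]
    [Algebra ℤ B] [Algebra.FiniteType ℤ A] (e : A ≃ₐ[ℤ] B) (h : FGen T n (aff ℤ A)) :
    FGen T n (aff ℤ B) := by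
  intro i hi
  obtain ⟨e'⟩ := hT.iso (ft_aff True) ⟨(affIso e).symm⟩ n hn i
  exact fg_iso e' (h i hi)

/-- The affine line. -/
lemma fgen_line {n : ℤ} (hn : n ≤ 0) (A : Type) [CommRing A] [Algebra ℤ A]
    [Algebra.FiniteType ℤ A] : FGen T n (aff ℤ A[X]) ↔ FGen T (n - 1) (aff ℤ A) := by
  constructor
  · intro h i hi
    obtain ⟨e⟩ := hT.line A n hn (i - 2)
    have h1 := fg_iso e (h (i - 2) (by omega))
    rwa [sub_add_cancel] at h1
  · intro h i hi
    obtain ⟨e⟩ := hT.line A n hn i
    exact fg_iso e.symm (h (i + 2) (by omega))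

/-- Affine spaces. -/
lemma fgen_space (k : Type) [CommRing k] [Algebra ℤ k] [Algebra.FiniteType ℤ k]
    (hk : ∀ n ≤ 0, FGen T n (aff ℤ k)) (N : ℕ) :
    ∀ n ≤ 0, FGen T n (aff ℤ (MvPolynomial (Fin N) k)) := by
  induction N with
  | zero =>
    intro n hn
    have e : k ≃ₐ[ℤ] MvPolynomial (Fin 0) k :=
      AlgEquiv.ofRingEquiv (f := (MvPolynomial.isEmptyRingEquiv k (Fin 0)).symm) (by
        intro r
        rw [eq_intCast, eq_intCast, map_intCast])
    exact fgen_iso hT hn e (hk n hn)
  | succ N ih =>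
    intro n hn
    have h1 : Algebra.FiniteType ℤ (MvPolynomial (Fin N) k) :=
      Algebra.FiniteType.trans (S := k) inferInstance inferInstance
    have h2 : Algebra.FiniteType ℤ (MvPolynomial (Fin N) k)[X] :=
      Algebra.FiniteType.trans (S := MvPolynomial (Fin N) k) inferInstance inferInstance
    have e : (MvPolynomial (Fin N) k)[X] ≃ₐ[ℤ] MvPolynomial (Fin (N + 1)) k :=
      AlgEquiv.ofRingEquiv (f := (MvPolynomial.finSuccEquiv k N).symm.toRingEquiv) (by
        intro r
        rw [eq_intCast, eq_intCast, map_intCast])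
    exact fgen_iso hT hn e ((fgen_line hT hn _).2 (ih (n - 1) (by omega)))

end Pool.Agent.Helper95.MG
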