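import Pool.Agent.Helper95.MG.Defs

/-!
# Double covers, hypersurfaces, windows of degrees
-/

set_option autoImplicit false

open CategoryTheory AlgebraicGeometry Polynomial
open Pool.Agent.Y116.UV (Sch aff FT IsTriple ft_aff affIso affMap of_affine' triple_away)
open Pool.Agent.Helper62.EC (Cls)
open Pool.Agent.Helper62.DB (Db triple_dbl)

namespace Pool.Agent.Helper95.MG

/-- The scheme `t ^ 2 - t = y F` over `ℤ`. -/
noncomputable def dblZ {N : ℕ} (F : MvPolynomial (Fin N) ℤ) : Sch ℤ := aff ℤ (Db F)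

/-- The hypersurface `F = 0`. -/
noncomputable def hypZ {N : ℕ} (F : MvPolynomial (Fin N) ℤ) : Sch ℤ :=
  aff ℤ (MvPolynomial (Fin N) ℤ ⧸ Ideal.span {F})

/-- adding one variable -/
noncomputable def eqv (N : ℕ) : Polynomial (MvPolynomial (Fin N) ℤ) ≃ₐ[ℤ]
    MvPolynomial (Fin (N + 1)) ℤ := (MvPolynomial.finSuccEquiv ℤ N).symm

variable {T : Groups} (hT : Known T)

include hT

lemma space (N : ℕ) {n : ℤ} (hn : n ≤ 0) : FGen T n (aff ℤ (MvPolynomial (Fin N) ℤ)) :=
  fgen_space hT ℤ (fun n hn => hT.integers n hn) N n hn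

lemma space_line (N : ℕ) {n : ℤ} (hn : n ≤ 0) :
    FGen T n (aff ℤ (MvPolynomial (Fin N) ℤ)[X]) :=
  (fgen_line hT hn _).2 (space hT N (by omega))

/-- The closed subscheme `t = 1`, `F = 0` of the double cover, degree by degree. -/
lemma hyp_of_dbl {n : ℤ} (hn : n ≤ 0) {N : ℕ} (F : MvPolynomial (Fin N) ℤ) (i : ℤ)
    (hi : i ≤ -2 * n) (h : AddGroup.FG (T.H n i (dblZ F))) :
    AddGroup.FG (T.H (n - 1) (i + 2) (hypZ F)) := by
  have h1 := (hT.localization _ _ (ft_aff True) (triple_dbl F ℤ) n hn).closed i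
    (space_line hT N hn (i - 1) (by omega)) h
  obtain ⟨e⟩ := hT.line (MvPolynomial (Fin N) ℤ ⧸ Ideal.span {F}) n hn i
  exact fg_iso e h1

/-- The double cover in the weight `n` and the hypersurface in the weight `n - 1`. -/
theorem dbl_iff {n : ℤ} (hn : n ≤ 0) {N : ℕ} (F : MvPolynomial (Fin N) ℤ) :
    FGen T n (dblZ F) ↔ FGen T (n - 1) (hypZ F) := by
  constructor
  · intro h i hi
    have h1 := hyp_of_dbl hT hn F (i - 2) (by omega) (h _ (by omega))
    rwa [sub_add_cancel] at h1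
  · intro h i hi
    obtain ⟨e⟩ := hT.line (MvPolynomial (Fin N) ℤ ⧸ Ideal.span {F}) n hn i
    exact (hT.localization _ _ (ft_aff True) (triple_dbl F ℤ) n hn).total i
      (fg_iso e.symm (h (i + 2) (by omega))) (space_line hT N hn i hi)

/-- From hypersurfaces to all schemes. -/
lemma all_of_hyp {n : ℤ} (hn : n < 0)
    (h : ∀ (N : ℕ) (F : MvPolynomial (Fin N) ℤ), FGen T n (hypZ F)) (X : Sch ℤ)
    (hX : FT True X) : FGen T n X := by
  have hP := cls hT hn
  refine of_affine' (P := FGen T n) (sep := True) hP.iso hP.total ?_ X hX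
  intro A _ _ hA
  obtain ⟨N, f, hf⟩ := Algebra.FiniteType.iff_quotient_mvPolynomial''.1 hA
  exact Pool.Agent.Helper62.EC.iso_alg hP (Ideal.quotientKerAlgEquivOfSurjective hf)
    (Pool.Agent.Helper67.SO.of_hyp hP (fun F => h N F) (RingHom.ker f))

/-- From the weight `n < 0` to the weight `n - 1`. -/
lemma all_down {n : ℤ} (hn : n < 0) (h : ∀ X : Sch ℤ, FT True X → FGen T n X) (X : Sch ℤ)
    (hX : FT True X) : FGen T (n - 1) X := by
  have hP := cls hT (n := n - 1) (by omega)
  refine of_affine' (P := FGen T (n - 1)) (sep := True) hP.iso hP.total ?_ X hX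
  intro A _ _ hA
  have h1 : Algebra.FiniteType ℤ A[X] := Algebra.FiniteType.trans (S := A) inferInstance
    inferInstance
  exact (fgen_line hT hn.le A).1 (h _ (ft_aff True))

lemma all_neg (h : ∀ X : Sch ℤ, FT True X → FGen T (-1) X) (n : ℤ) (hn : n < 0) (X : Sch ℤ)
    (hX : FT True X) : FGen T n X := by
  have key : ∀ k : ℕ, ∀ X : Sch ℤ, FT True X → FGen T (-1 - k) X := by
    intro k
    induction k with
    | zero =>
      intro X hX
      rw [Nat.cast_zero, sub_zero]
      exact h X hX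
    | succ k ih =>
      intro X hX
      have h1 := all_down hT (n := -1 - k) (by omega) ih X hX
      have e1 : -1 - ((k + 1 : ℕ) : ℤ) = -1 - k - 1 := by push_cast; ring
      rwa [e1]
  obtain ⟨k, rfl⟩ : ∃ k : ℕ, n = -1 - k := ⟨(-1 - n).toNat, by omega⟩
  exact key k X hX

end Pool.Agent.Helper95.MG
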