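import Pool.Agent.Helper95.MG.Win

/-!
# Blow-ups of projective spaces over the integers
-/

set_option autoImplicit false

open CategoryTheory AlgebraicGeometry Polynomial
open Pool.Agent.Y116.UV (Sch aff FT IsTriple ft_aff affIso affMap triple_away of_affine')
open Pool.Agent.Helper62.EC (Cls)

namespace Pool.Agent.Helper95.MG

attribute [local instance] MvPolynomial.gradedAlgebra in
/-- The projective space of dimension `N` over `ℤ`. -/
noncomputable def projZ (N : ℕ) : Sch ℤ :=
  Over.mk (specZIsTerminal.from (Proj (MvPolynomial.homogeneousSubmodule (Fin (N + 1)) ℤ)))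

/-- `Z` is a regular connected scheme which is projective over `ℤ` (flat or not). -/
structure Nice (Z : Sch ℤ) : Prop where
  regular : Q54.CU.IsRegularSch Z.left
  connected : ConnectedSpace Z.left
  proper : IsProper Z.hom
  projective : ∃ (N : ℕ) (i : Z ⟶ projZ N), IsClosedImmersion i.left

/-- The closed immersion `i` is an effective Cartier divisor: its ideal is locally generated by one
nonzerodivisor. -/
def IsCartier {D X : Scheme.{0}} (i : D ⟶ X) : Prop :=
  ∀ x : X, ∃ V : X.affineOpens, x ∈ V.1 ∧ ∃ a ∈ nonZeroDivisors Γ(X, V.1),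
    i.ker.ideal V = Ideal.span {a}

/-- `b` is the blow-up of `B` along the closed subscheme `Z`: the inverse image of `Z` is an effective
Cartier divisor, and `b` is universal with this property. -/
def IsBlowUp {B' B Z : Scheme.{0}} (b : B' ⟶ B) (i : Z ⟶ B) : Prop :=
  IsCartier (Limits.pullback.snd i b) ∧ ∀ (Y : Scheme.{0}) (g : Y ⟶ B),
    IsCartier (Limits.pullback.snd i g) → ∃! h : Y ⟶ B', h ≫ b = g

/-- `Z` is a closed subscheme of `B`, regular, connected and projective over `ℤ`, of codimension `c ≥ 1`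
in the scheme `B` of dimension `N + 1`, and `b : B' ⟶ B` is the blow-up of `B` along `Z`. -/
structure IsStep (N c : ℕ) {B' B Z : Sch ℤ} (b : B' ⟶ B) (i : Z ⟶ B) : Prop where
  closed : IsClosedImmersion i.left
  nice : Nice Z
  dim : topologicalKrullDim Z.left + c = N + 1
  pos : 0 < c
  blowUp : IsBlowUp b.left i.left

/-- Towers of blow-ups of the projective space of dimension `N` over `ℤ` along regular connected closed
subschemes, flat over `ℤ` or not. (These towers are regular, projective and flat over `ℤ`, of dimension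
`N + 1`.) -/
inductive IsTower (N : ℕ) : Sch ℤ → Prop
  | space : IsTower N (projZ N)
  | blowUp {B' B Z : Sch ℤ} {c : ℕ} (b : B' ⟶ B) (i : Z ⟶ B) : IsTower N B → IsStep N c b i →
      IsTower N B'

/-- `f` is a finite surjective morphism between regular connected schemes. -/
structure IsCovering {V U : Sch ℤ} (f : V ⟶ U) : Prop where
  finite : IsFinite f.left
  surjective : Function.Surjective f.left
  regular : Q54.CU.IsRegularSch V.left ∧ Q54.CU.IsRegularSch U.left
  connected : ConnectedSpace V.left ∧ ConnectedSpace U.left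

/-- Known facts on blow-ups, coverings and alterations. `space`: projective spaces; `blowUp`: the blow-up
formula in the weight zero; `embed`: projective schemes can be embedded in projective spaces of large
dimension, and blow-ups exist; `covering`: for a finite morphism `f` of degree `m` of regular schemes
`f_* f^* = m`; `torsion`: in the weights `n < 0` the groups have finite `m`-torsion; `alteration`: the
theorem of de Jong, for an integral affine scheme `Spec D`: a nonempty open subscheme `Spec D_w` has a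
covering `V` which is an open subscheme of a regular connected projective scheme `Y`, and the
complement `S` of `V` in `Y` has smaller dimension than `Spec D`. -/
structure KnownGeometry (T : Groups) : Prop where
  space : ∀ N : ℕ, ∀ j ≤ 0, AddGroup.FG (T.H 0 j (projZ N))
  blowUp : ∀ {N c : ℕ} {B' B Z : Sch ℤ} (b : B' ⟶ B) (i : Z ⟶ B), IsTower N B → IsStep N c b i →
    ∀ j, Nonempty (T.H 0 j B' ≃+ T.H 0 j B × ∀ k : Fin (c - 1), T.H (-(k + 1)) (j + 2 * (k + 1)) Z)
  embed : ∀ Z : Sch ℤ, Nice Z → ∀ e : ℕ, ∃ (N c : ℕ) (B' : Sch ℤ) (b : B' ⟶ projZ N)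
    (i : Z ⟶ projZ N), IsStep N c b i ∧ e ≤ N ∧ e < c
  covering : ∀ {V U : Sch ℤ} (f : V ⟶ U), FT True U → IsCovering f → ∃ m : ℕ, 0 < m ∧
    ∀ n < 0, ∀ i, ∃ (u : T.H n i U →+ T.H n i V) (v : T.H n i V →+ T.H n i U), ∀ x, v (u x) = m • x
  torsion : ∀ n < 0, ∀ (i : ℤ) (X : Sch ℤ), FT True X → ∀ m : ℕ, 0 < m →
    {x : T.H n i X | m • x = 0}.Finite
  alteration : ∀ (D : Type) [CommRing D] [IsDomain D] [Algebra ℤ D] [Algebra.FiniteType ℤ D],
    ∃ (w : D) (Y S V : Sch ℤ) (i : S ⟶ Y) (j : V ⟶ Y) (f : V ⟶ aff ℤ (Localization.Away w)),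
      w ≠ 0 ∧ Nice Y ∧ IsTriple i j ∧ IsCovering f ∧
      topologicalKrullDim S.left < topologicalKrullDim (aff ℤ D).left

section algebra

/-- subgroups of finitely generated groups -/
lemma fg_of_injective {A B : Type} [AddCommGroup A] [AddCommGroup B] (f : A →+ B)
    (hf : Function.Injective f) (hB : AddGroup.FG B) : AddGroup.FG A := by
  have hB' : Module.Finite ℤ B := Module.Finite.iff_addGroup_fg.mpr hB
  exact Module.Finite.iff_addGroup_fg.mp (Module.Finite.of_injective f.toIntLinearMap hf)

lemma fg_of_surjective {A B : Type} [AddCommGroup A] [AddCommGroup B] (f : A →+ B)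
    (hf : Function.Surjective f) (hA : AddGroup.FG A) : AddGroup.FG B := by
  have hA' : Module.Finite ℤ A := Module.Finite.iff_addGroup_fg.mpr hA
  exact Module.Finite.iff_addGroup_fg.mp (Module.Finite.of_surjective f.toIntLinearMap hf)

/-- transfer -/
lemma fg_of_transfer {A B : Type} [AddCommGroup A] [AddCommGroup B] (u : A →+ B) (v : B →+ A)
    {m : ℕ} (h : ∀ x, v (u x) = m • x) (hm : {x : A | m • x = 0}.Finite) (hB : AddGroup.FG B) :
    AddGroup.FG A := by
  have h1 : Finite u.ker := by
    have h0 : (u.ker : Set A).Finite := hm.subset fun x hx => by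
      have h2 : u x = 0 := hx
      have h3 := h x
      rw [h2, map_zero] at h3
      exact h3.symm
    exact h0.to_subtype
  refine fg_mid u.ker.subtype u ?_ inferInstance hB
  intro x
  constructor
  · intro hx
    exact ⟨⟨x, hx⟩, rfl⟩
  · rintro ⟨y, rfl⟩
    exact y.2

end algebra

variable {T : Groups} (hT : Known T) (hG : KnownGeometry T)

lemma ft_nice {Y : Sch ℤ} (h : Nice Y) : FT True Y := by
  have h1 := h.proper
  exact ⟨inferInstance, inferInstance, fun _ => inferInstance⟩

include hG in
lemma tower_of_neg (h : ∀ n < 0, ∀ X : Sch ℤ, FT True X → ∀ i, AddGroup.FG (T.H n i X)) {N : ℕ}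
    {B : Sch ℤ} (hB : IsTower N B) : ∀ j ≤ 0, AddGroup.FG (T.H 0 j B) := by
  induction hB with
  | space => exact hG.space N
  | @blowUp B' B Z c b i hB hs ih =>
    intro j hj
    obtain ⟨f⟩ := hG.blowUp b i hB hs j
    have h1 := ih j hj
    have h2 : ∀ k : Fin (c - 1), AddGroup.FG (T.H (-(k + 1)) (j + 2 * (k + 1)) Z) := fun k =>
      h _ (by omega) Z (ft_nice hs.nice) _
    have h3 : AddGroup.FG (T.H 0 j B × ∀ k : Fin (c - 1), T.H (-(k + 1)) (j + 2 * (k + 1)) Z) := by
      rw [← Module.Finite.iff_addGroup_fg] at h1 ⊢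
      have : ∀ k : Fin (c - 1), Module.Finite ℤ (T.H (-(k + 1)) (j + 2 * (k + 1)) Z) := fun k => by
        rw [Module.Finite.iff_addGroup_fg]
        exact h2 k
      infer_instance
    exact fg_iso f.symm h3

include hT hG

/-- From the weight `0` for towers to the weights `n < 0` for regular projective schemes. -/
lemma nice_of_tower
    (h : ∀ (N : ℕ) (B : Sch ℤ), IsTower N B → ∀ j ≤ 0, -2 * ((N : ℤ) + 1) ≤ j →
      AddGroup.FG (T.H 0 j B)) (n : ℤ) (hn : n < 0) (Y : Sch ℤ) (hY : Nice Y) (i : ℤ) :
    AddGroup.FG (T.H n i Y) := by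
  rcases le_or_gt i (-2 * n) with hi | hi
  · obtain ⟨j, rfl⟩ : ∃ j : ℕ, n = -((j : ℤ) + 1) := ⟨(-n - 1).toNat, by omega⟩
    obtain ⟨N, c, B', b, ι, hs, hN, hc⟩ := hG.embed Y hY (j + 1 + (2 * ((j : ℤ) + 1) - i).toNat)
    obtain ⟨f⟩ := hG.blowUp b ι .space hs (i - 2 * (j + 1))
    have hfg := h N B' (.blowUp b ι .space hs) (i - 2 * (j + 1)) (by omega) (by omega)
    have h2 := fg_of_surjective
      ((Pi.evalAddMonoidHom (fun k : Fin (c - 1) => T.H (-(k + 1)) (i - 2 * (j + 1) + 2 * (k + 1)) Y)
        ⟨j, by omega⟩).comp ((AddMonoidHom.snd _ _).comp f.toAddMonoidHom)) (fun y => by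
          refine ⟨f.symm (0, Pi.single ⟨j, by omega⟩ y), ?_⟩
          simp) hfg
    have h3 : AddGroup.FG (T.H (-((j : ℤ) + 1)) (i - 2 * (j + 1) + 2 * (j + 1)) Y) := h2
    rwa [sub_add_cancel] at h3
  · exact hT.high n hn i hi Y (ft_nice hY)

omit hG in
/-- From affine schemes to all schemes, with a bound for the dimension. -/
lemma of_affine_dim {n : ℤ} (hn : n < 0) (e : ℕ) (h : ∀ (A : Type) [CommRing A] [Algebra ℤ A]
    [Algebra.FiniteType ℤ A], ringKrullDim A < e → FGen T n (aff ℤ A)) (X : Sch ℤ)
    (hX : FT True X) (hd : topologicalKrullDim X.left < e) : FGen T n X := by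
  have hP := cls hT hn
  refine of_affine' (P := fun X => topologicalKrullDim X.left < e → FGen T n X) (sep := True)
    ?_ ?_ ?_ X hX hd
  · intro X Y hX e' hPX hY
    refine hP.iso hX e' (hPX ?_)
    obtain ⟨e'⟩ := e'
    have : IsIso e'.hom.left := inferInstanceAs (IsIso ((Over.forget _).map e'.hom))
    exact lt_of_le_of_lt e'.hom.left.isOpenEmbedding.isInducing.topologicalKrullDim_le hY
  · intro Z X U i j hX ht hZ hU hd
    refine hP.total i j hX ht (hZ ?_) (hU ?_)
    · have := ht.closed
      exact lt_of_le_of_lt i.left.isClosedEmbedding.isInducing.topologicalKrullDim_le hd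
    · have := ht.opened
      exact lt_of_le_of_lt j.left.isOpenEmbedding.isInducing.topologicalKrullDim_le hd
  · intro A _ _ _ hA
    refine h A ?_
    rw [← PrimeSpectrum.topologicalKrullDim_eq_ringKrullDim]
    exact hA

/-- From regular projective schemes to all affine schemes, by induction on the dimension. -/
lemma affine_of_nice (n : ℤ) (hn : n < 0) (h : ∀ Y : Sch ℤ, Nice Y → ∀ i, AddGroup.FG (T.H n i Y))
    (e : ℕ) : ∀ (A : Type) [CommRing A] [Algebra ℤ A] [Algebra.FiniteType ℤ A],
      ringKrullDim A < e → FGen T n (aff ℤ A) := by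
  have hP := cls hT hn
  have hZ : FGen T n (aff ℤ ℤ) := hT.integers n hn.le
  induction e with
  | zero =>
    intro A _ _ _ hA
    refine Pool.Agent.Helper62.EC.p_empty hP hZ A ?_
    by_contra hcon
    rw [not_subsingleton_iff_nontrivial] at hcon
    exact absurd (ringKrullDim_nonneg_of_nontrivial (R := A)) (not_le.2 (by simpa using hA))
  | succ e ih =>
    intro A _ _ _ hA
    refine Pool.Agent.Helper62.EC.noeth hP
      (fun B _ _ hB => Pool.Agent.Helper62.EC.p_empty hP hZ B hB) fun p hp => ?_
    obtain ⟨w, Y, S, V, i, j, f, hw, hY, ht, hf, hS⟩ := hG.alteration (A ⧸ p)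
    refine ⟨w, hw, ?_⟩
    have hYft := ft_nice hY
    have hft := ft_triple i j hYft ht
    have h1 : topologicalKrullDim (aff ℤ (A ⧸ p)).left < ((e + 1 : ℕ) : WithBot ℕ∞) := by
      refine lt_of_le_of_lt ?_ hA
      have h2 : topologicalKrullDim (aff ℤ (A ⧸ p)).left = ringKrullDim (A ⧸ p) :=
        PrimeSpectrum.topologicalKrullDim_eq_ringKrullDim (A ⧸ p)
      rw [h2]
      exact ringKrullDim_quotient_le p
    have h3 : topologicalKrullDim S.left < (e : WithBot ℕ∞) := by
      have h4 : topologicalKrullDim (aff ℤ (A ⧸ p)).left ≤ (e : WithBot ℕ∞) := by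
        rw [Nat.cast_succ] at h1
        exact (ENat.WithBot.lt_add_one_iff).1 h1
      exact lt_of_lt_of_le hS h4
    have h5 : FGen T n S := of_affine_dim hT hn e ih S hft.1 h3
    have h6 : ∀ i, AddGroup.FG (T.H n i V) := fun k =>
      (hT.localization i j hYft ht n hn.le).opened k (h Y hY k) (fgen_all hT hn hft.1 h5 _)
    have h7 : Algebra.FiniteType ℤ (Localization.Away w) :=
      Algebra.FiniteType.trans (S := A ⧸ p) inferInstance inferInstance
    obtain ⟨m, hm, h8⟩ := hG.covering f (ft_aff True) hf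
    intro k _
    obtain ⟨u, v, huv⟩ := h8 n hn k
    exact fg_of_transfer u v huv (hG.torsion n hn k _ (ft_aff True) m hm) (h6 k)

/-- From regular projective schemes to all schemes. -/
lemma all_of_nice (n : ℤ) (hn : n < 0) (h : ∀ Y : Sch ℤ, Nice Y → ∀ i, AddGroup.FG (T.H n i Y)) :
    ∀ X : Sch ℤ, FT True X → FGen T n X := by
  have hP := cls hT hn
  intro X hX
  refine of_affine' (P := FGen T n) (sep := True) hP.iso hP.total ?_ X hX
  intro A _ _ hA
  obtain ⟨N, f, hf⟩ := Algebra.FiniteType.iff_quotient_mvPolynomial''.1 hA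
  refine affine_of_nice hT hG n hn h (N + 2) A ?_
  have h1 : ringKrullDim A ≤ ringKrullDim (MvPolynomial (Fin N) ℤ) :=
    ringKrullDim_le_of_surjective f.toRingHom hf
  rw [MvPolynomial.ringKrullDim_of_isNoetherianRing] at h1
  refine lt_of_le_of_lt h1 ?_
  rw [IsPrincipalIdealRing.ringKrullDim_eq_one ℤ Int.not_isField, Nat.card_eq_fintype_card,
    Fintype.card_fin]
  have h2 : (1 : WithBot ℕ∞) + (N : WithBot ℕ∞) = ((1 + N : ℕ) : WithBot ℕ∞) := by push_cast; rfl
  rw [h2]
  exact_mod_cast (by omega : 1 + N < N + 2)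

end Pool.Agent.Helper95.MG
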