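import Pool.Agent.Helper95.MG.Main

/-!
# Windows of degrees
-/

set_option autoImplicit false

open CategoryTheory AlgebraicGeometry Polynomial
open Pool.Agent.Y116.UV (Sch aff FT IsTriple ft_aff affIso affMap triple_away)

namespace Pool.Agent.Helper95.MG

section rings

variable {N : ℕ} (h : MvPolynomial (Fin N) ℤ)

/-- the hypersurface `x_0 h = 1` -/
noncomputable def awayEquiv : (MvPolynomial (Fin (N + 1)) ℤ ⧸ Ideal.span {eqv N (C h * X - 1)}) ≃+*
    Localization.Away h :=
  (Ideal.quotientEquiv (Ideal.span {C h * X - 1}) (Ideal.span {eqv N (C h * X - 1)})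
    (eqv N).toRingEquiv (by
      rw [Ideal.map_span, Set.image_singleton]
      rfl)).symm.trans (Localization.awayEquivAdjoin h).symm.toRingEquiv

attribute [local instance] Polynomial.algebra in
lemma away_poly : IsLocalization.Away (C h : (MvPolynomial (Fin N) ℤ)[X])
    (Localization.Away h)[X] := by
  have h1 := Polynomial.isLocalization (Submonoid.powers h) (Localization.Away h)
  have h2 : (Submonoid.powers h).map C = Submonoid.powers (C h : (MvPolynomial (Fin N) ℤ)[X]) := by
    rw [Submonoid.map_powers]
  rwa [h2] at h1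

/-- transport of localisations -/
noncomputable def awayCongr {R S : Type} [CommRing R] [CommRing S] (e : R ≃+* S) (x : R)
    (A : Type) [CommRing A] [Algebra R A] [IsLocalization.Away x A] :
    Localization.Away (e x) ≃+* A :=
  (IsLocalization.ringEquivOfRingEquiv (M := Submonoid.powers x) (T := Submonoid.powers (e x)) A
    (Localization.Away (e x)) e (by
      exact Submonoid.map_powers _ _)).symm

attribute [local instance] Polynomial.algebra in
/-- the product with the affine line -/
lemma line_equiv : Nonempty (Localization.Away (eqv N (C h)) ≃+* (Localization.Away h)[X]) := by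
  have h1 := away_poly h
  exact ⟨awayCongr (eqv N).toRingEquiv (C h) (Localization.Away h)[X]⟩

attribute [local instance] Polynomial.algebra in
/-- the product with the multiplicative group -/
lemma torus_equiv : Nonempty (Localization.Away (eqv N (X * C h)) ≃+*
    Localization.Away (X : (Localization.Away h)[X])) := by
  have h1 := away_poly h
  have h2 : algebraMap (MvPolynomial (Fin N) ℤ)[X] (Localization.Away h)[X] X = X := by
    rw [Polynomial.algebraMap_def]
    exact Polynomial.map_X _
  have h3 : IsLocalization.Away (algebraMap (MvPolynomial (Fin N) ℤ)[X] (Localization.Away h)[X] X)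
      (Localization.Away (X : (Localization.Away h)[X])) := by
    rw [h2]
    infer_instance
  have h4 : IsLocalization.Away (X * C h : (MvPolynomial (Fin N) ℤ)[X])
      (Localization.Away (X : (Localization.Away h)[X])) :=
    IsLocalization.Away.mul (Localization.Away h)[X] _ (C h) X
  exact ⟨awayCongr (eqv N).toRingEquiv (X * C h) _⟩

end rings

variable {T : Groups} (hT : Known T)

include hT

lemma fg_ring {n : ℤ} (hn : n ≤ 0) {A B : Type} [CommRing A] [CommRing B]
    [Algebra ℤ A] [Algebra ℤ B] [Algebra.FiniteType ℤ A] (e : A ≃+* B) (i : ℤ)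
    (h : AddGroup.FG (T.H n i (aff ℤ A))) : AddGroup.FG (T.H n i (aff ℤ B)) := by
  let e' : A ≃ₐ[ℤ] B := AlgEquiv.ofRingEquiv (f := e) (by
    intro r
    rw [eq_intCast, eq_intCast, map_intCast])
  obtain ⟨g⟩ := hT.iso (ft_aff True) ⟨(affIso e').symm⟩ n hn i
  exact fg_iso g h

/-- The complement of `h = 0` and its products with the line and the multiplicative group. -/
lemma away_step {n : ℤ} (hn : n ≤ 0) {N : ℕ} (h : MvPolynomial (Fin N) ℤ) (j : ℤ)
    (h1 : AddGroup.FG (T.H n j (aff ℤ (Localization.Away (eqv N (C h))))))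
    (h2 : AddGroup.FG (T.H n (j - 1) (aff ℤ (Localization.Away (eqv N (X * C h)))))) :
    AddGroup.FG (T.H n j (aff ℤ (Localization.Away h))) := by
  obtain ⟨e1⟩ := line_equiv h
  obtain ⟨e2⟩ := torus_equiv h
  have f1 : Algebra.FiniteType ℤ (Localization.Away (eqv N (C h))) :=
    Algebra.FiniteType.trans (S := MvPolynomial (Fin (N + 1)) ℤ) inferInstance inferInstance
  have f2 : Algebra.FiniteType ℤ (Localization.Away (eqv N (X * C h))) :=
    Algebra.FiniteType.trans (S := MvPolynomial (Fin (N + 1)) ℤ) inferInstance inferInstance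
  have f3 : Algebra.FiniteType ℤ (Localization.Away h) :=
    Algebra.FiniteType.trans (S := MvPolynomial (Fin N) ℤ) inferInstance inferInstance
  have f4 : Algebra.FiniteType ℤ (Localization.Away h)[X] :=
    Algebra.FiniteType.trans (S := Localization.Away h) inferInstance inferInstance
  have h3 := fg_ring hT hn e1 j h1
  have h4 := fg_ring hT hn e2 (j - 1) h2
  have h5 := (hT.localization _ _ (ft_aff True) (triple_away (X : (Localization.Away h)[X])) n
    hn).closed j h4 h3
  have f5 : Algebra.FiniteType ℤ ((Localization.Away h)[X] ⧸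
    Ideal.span {(X : (Localization.Away h)[X])}) := inferInstance
  let e3 : ((Localization.Away h)[X] ⧸ Ideal.span {(X : (Localization.Away h)[X])}) ≃+*
      Localization.Away h :=
    (Ideal.quotEquivOfEq (by rw [C_0, sub_zero])).trans
      (Polynomial.quotientSpanXSubCAlgEquiv (0 : Localization.Away h)).toRingEquiv
  exact fg_ring hT hn e3 j h5

/-- Iteration. -/
lemma away_window {n : ℤ} (hn : n ≤ 0) (M : ℕ) : ∀ (N : ℕ) (j : ℤ),
    (∀ (h : MvPolynomial (Fin (N + M)) ℤ) (i : ℤ), j - M ≤ i → i ≤ j →
      AddGroup.FG (T.H n i (aff ℤ (Localization.Away h)))) →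
    ∀ h : MvPolynomial (Fin N) ℤ, AddGroup.FG (T.H n j (aff ℤ (Localization.Away h))) := by
  induction M with
  | zero =>
    intro N j hw h
    exact hw h j (by simp) le_rfl
  | succ M ih =>
    intro N j hw h
    have key : ∀ i, j - 1 ≤ i → i ≤ j → ∀ h : MvPolynomial (Fin (N + 1)) ℤ,
        AddGroup.FG (T.H n i (aff ℤ (Localization.Away h))) := by
      intro i hi hi2
      apply ih (N + 1) i
      have hNM : N + 1 + M = N + (M + 1) := by ring
      rw [hNM]
      intro h' i' h1 h2
      exact hw h' i' (by push_cast; linarith) (by linarith)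
    exact away_step hT hn h j (key j (by linarith) le_rfl _) (key (j - 1) le_rfl (by linarith) _)

/-- **Windows.** If the groups of the double covers in the weight zero are finitely generated in
windows of unbounded length, then the groups of the weight `-1` of all hypersurfaces are. -/
theorem hyp_of_window (φ : ℕ → ℕ) (hφ : ∀ B, ∃ d, B ≤ φ d)
    (hw : ∀ (N : ℕ) (F : MvPolynomial (Fin N) ℤ) (i : ℤ), -((N : ℤ) + 2) - φ (N + 2) ≤ i → i ≤ 0 →
      AddGroup.FG (T.H 0 i (dblZ F))) (N : ℕ) (F : MvPolynomial (Fin N) ℤ) : FGen T (-1) (hypZ F) := by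
  -- large values at large arguments
  have hφ2 : ∀ B m : ℕ, ∃ d, m ≤ d ∧ B ≤ φ d := by
    intro B m
    obtain ⟨d, hd⟩ := hφ (B + ∑ k ∈ Finset.range m, φ k + 1)
    refine ⟨d, ?_, by omega⟩
    by_contra hcon
    have h1 : φ d ≤ ∑ k ∈ Finset.range m, φ k :=
      Finset.single_le_sum (f := φ) (fun _ _ => Nat.zero_le _) (Finset.mem_range.2 (by omega))
    omega
  -- hypersurfaces
  have h1 : ∀ (N : ℕ) (F : MvPolynomial (Fin N) ℤ) (i : ℤ), -(N : ℤ) - φ (N + 2) ≤ i →
      AddGroup.FG (T.H (-1) i (hypZ F)) := by
    intro N F i hi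
    rcases le_or_gt i 2 with h2 | h2
    · have h3 := hyp_of_dbl hT (n := 0) le_rfl F (i - 2) (by omega)
        (hw N F (i - 2) (by omega) (by omega))
      rw [sub_add_cancel, zero_sub] at h3
      exact h3
    · exact hT.high (-1) (by norm_num) i (by omega) _ (ft_aff True)
  -- complements
  have h2 : ∀ (N : ℕ) (h : MvPolynomial (Fin N) ℤ) (i : ℤ), -((N : ℤ) + 1) - φ (N + 1 + 2) ≤ i →
      AddGroup.FG (T.H (-1) i (aff ℤ (Localization.Away h))) := by
    intro N h i hi
    exact fg_ring hT (by norm_num) (awayEquiv h) i (h1 (N + 1) _ i (by push_cast; linarith))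
  have h3 : ∀ (N : ℕ) (j : ℤ) (h : MvPolynomial (Fin N) ℤ),
      AddGroup.FG (T.H (-1) j (aff ℤ (Localization.Away h))) := by
    intro N j
    obtain ⟨d, hd1, hd2⟩ := hφ2 (-j).toNat (N + 3)
    obtain ⟨M, rfl⟩ : ∃ M, d = N + M + 1 + 2 := ⟨d - (N + 3), by omega⟩
    refine away_window hT (by norm_num) M N j fun h i hi _ => h2 (N + M) h i ?_
    have h4 : -j ≤ ((-j).toNat : ℤ) := Int.self_le_toNat _
    push_cast
    have h5 : (((-j).toNat : ℕ) : ℤ) ≤ φ (N + M + 1 + 2) := by exact_mod_cast hd2
    linarith
  intro i _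
  exact (hT.localization _ _ (ft_aff True) (triple_away F) (-1) (by norm_num)).closed i
    (h3 N (i - 1) F) (space hT N (by norm_num) i (by omega))

end Pool.Agent.Helper95.MG
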